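import Pool.Agent.H37.CTO.Stmts

/-!
# Row P34 of the board cto (MP_b57703_ag): a subgroup of `SL_n(F)` with all transvections with centre `e_0`
-/

set_option autoImplicit false

namespace Pool.CND

open Matrix

namespace P34X

variable {F : Type} [Field F] {n : ℕ}

/-- All transvections with centre `v` are in `G₀`. -/
def T (G₀ : Subgroup (Matrix.SpecialLinearGroup (Fin n) F)) (v : Fin n → F) : Prop :=
  ∀ (φ : Fin n → F) (g : Matrix.SpecialLinearGroup (Fin n) F), φ ⬝ᵥ v = 0 →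
    g.1 = 1 + vecMulVec v φ → g ∈ G₀

theorem ex (v φ : Fin n → F) (h : φ ⬝ᵥ v = 0) :
    ∃ g : Matrix.SpecialLinearGroup (Fin n) F, g.1 = 1 + vecMulVec v φ := by
  refine ⟨⟨1 + vecMulVec v φ, ?_⟩, rfl⟩
  rw [vecMulVec_eq Unit, det_one_add_replicateCol_mul_replicateRow, h, add_zero]

variable {G₀ : Subgroup (Matrix.SpecialLinearGroup (Fin n) F)}

theorem T_zero : T G₀ 0 := by
  intro φ g _ hg
  have : g = 1 := by
    apply Subtype.ext
    rw [hg, zero_vecMulVec, add_zero]
    rfl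
  rw [this]
  exact G₀.one_mem

theorem T_smul {v : Fin n → F} (h : T G₀ v) (c : F) : T G₀ (c • v) := by
  intro φ g hφ hg
  apply h (c • φ) g
  · rw [smul_dotProduct, ← dotProduct_smul, hφ]
  · rw [hg, smul_vecMulVec, vecMulVec_smul]

theorem T_conj {v : Fin n → F} (g : Matrix.SpecialLinearGroup (Fin n) F) (hg : g ∈ G₀)
    (h : T G₀ v) : T G₀ (g.1 *ᵥ v) := by
  intro φ x hφ hx
  have h1 : g⁻¹ * x * g ∈ G₀ := by
    refine h (φ ᵥ* g.1) _ ?_ ?_
    · rw [← dotProduct_mulVec, hφ]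
    · have h2 : (g⁻¹).1 * g.1 = 1 := congrArg Subtype.val (inv_mul_cancel g)
      have h3 : (g⁻¹ * x * g).1 = (g⁻¹).1 * x.1 * g.1 := rfl
      rw [h3, hx, mul_add, mul_one, add_mul, h2, mul_vecMulVec, vecMulVec_mul, mulVec_mulVec, h2,
        one_mulVec]
  have h4 : x = g * (g⁻¹ * x * g) * g⁻¹ := by group
  rw [h4]
  exact G₀.mul_mem (G₀.mul_mem hg h1) (G₀.inv_mem hg)

theorem fun_ex {v w : Fin n → F} (hv : v ≠ 0) (hw : ∀ c : F, w ≠ c • v) :
    ∃ φ : Fin n → F, φ ⬝ᵥ v = 0 ∧ φ ⬝ᵥ w = 1 := by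
  obtain ⟨i, hi⟩ := Function.ne_iff.1 hv
  obtain ⟨j, hj⟩ := Function.ne_iff.1 (hw (w i / v i))
  simp only [Pi.zero_apply] at hi
  have hd : w j - w i / v i * v j ≠ 0 := by
    intro h
    apply hj
    rw [Pi.smul_apply, smul_eq_mul]
    exact sub_eq_zero.1 h
  refine ⟨(w j - w i / v i * v j)⁻¹ • (Pi.single j 1 - (v j / v i) • Pi.single i 1), ?_, ?_⟩
  · rw [smul_dotProduct, sub_dotProduct, smul_dotProduct, single_dotProduct, single_dotProduct,
      one_mul, one_mul, smul_eq_mul, smul_eq_mul, div_mul_cancel₀ _ hi, sub_self, mul_zero]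
  · rw [smul_dotProduct, sub_dotProduct, smul_dotProduct, single_dotProduct, single_dotProduct,
      one_mul, one_mul, smul_eq_mul, smul_eq_mul]
    have e : w j - v j / v i * w i = w j - w i / v i * v j := by ring
    rw [e, inv_mul_cancel₀ hd]

theorem T_add {v w : Fin n → F} (hv : T G₀ v) (hw : T G₀ w) : T G₀ (v + w) := by
  by_cases h0 : v = 0
  · rw [h0, zero_add]
    exact hw
  by_cases h1 : ∃ c : F, w = c • v
  · obtain ⟨c, hc⟩ := h1
    have : v + w = (1 + c) • v := by rw [hc, add_smul, one_smul]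
    rw [this]
    exact T_smul hv _
  · obtain ⟨φ, hφv, hφw⟩ := fun_ex h0 fun c hc => h1 ⟨c, hc⟩
    obtain ⟨g, hg⟩ := ex v φ hφv
    have h2 := T_conj g (hv φ g hφv hg) hw
    have h3 : g.1 *ᵥ w = v + w := by
      rw [hg, add_mulVec, one_mulVec, vecMulVec_mulVec, hφw]
      simp [add_comm]
    rwa [h3] at h2

end P34X

open P34X in
theorem p34_thm (h1 : S_GN3) : S_P34 := by
  intro F _ _ n G₀ hU hG
  apply h1 F (n + 1) G₀
  let U : Submodule F (Fin (n + 1) → F) :=
    { carrier := {v | T G₀ v}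
      add_mem' := fun {a b} ha hb => T_add ha hb
      zero_mem' := T_zero
      smul_mem' := fun c v hv => T_smul hv c }
  have hU' : U = ⊤ := by
    apply hU U
    · intro g hg u hu
      exact T_conj g hg hu
    · intro φ g hφ hg
      apply hG g
      · intro i j hi
        rw [hg, Matrix.add_apply, vecMulVec_apply, Pi.single_eq_of_ne hi, zero_mul, add_zero, one_apply]
      · rw [dotProduct_single, mul_one] at hφ
        rw [hg, Matrix.add_apply, vecMulVec_apply, hφ, mul_zero, add_zero, one_apply_eq]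
  intro g v φ hφ hg
  have hv : v ∈ U := by
    rw [hU']
    exact Submodule.mem_top
  exact hv φ g hφ hg

end Pool.CND
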